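import Pool.Agent.TH6.NC.Num

/-!
# The noncommutative Künneth conjecture: its numerical form and the field of coefficients

Let `k` be a field of characteristic `0`, `𝒜` a saturated dg category over `k`, and `K` an
algebraically closed field which contains `k`.  We apply the theorem to the super vector space
`V = HP^±(𝒜) ⊗_k K` over `K`, where `p` is the projector `π⁺` onto its even part, so that
`range p = HP⁺(𝒜) ⊗ K`, and to the image `R` of `K_0(𝒜ᵒᵖ ⊗ 𝒜)_ℚ` in `End_K(V)`.  It is a ring, closed
under multiplication by rational numbers, its elements respect the grading (they commute with `p`),
and their super traces are rational: the super trace of the image of the class of a bimodule is an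
Euler characteristic (of the Hochschild homology with values in the bimodule).

For a field `F` between `ℚ` and `K`, in particular for the fields of coefficients `F ⊆ k` or
`k ⊆ F` of the problem (`K` can be any algebraically closed field containing `k` and `F`), the
statement `C_NC(𝒜)` for noncommutative motives with coefficients in `F` says that `p` is in the
`F`-linear span of `R`: this is condition (2).  Condition (1) is the same with rational
coefficients.

`superTrace p x` is the super trace of `x`, and `NumIdempotent p R T` says that `T * T` and `T` are
numerically equivalent: `(T * T - T) * s` has super trace `0` for all `s ∈ R`.  The numbers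
`superTrace p T` in (3) and (4) are the intersection numbers (Euler pairings) of `T` with the
diagonal bimodule; so (3) and (4) are statements about `K_0(𝒜ᵒᵖ ⊗ 𝒜)_ℚ` modulo numerical equivalence
and the integer `dim HP⁺(𝒜)`.

Idea of the proof of (2) ⇒ (1): the coordinates of `p` with respect to elements of `R` which span
`K R` solve polynomial equations with rational coefficients, which say that the operator is a
numerical idempotent with super trace `dim V⁺`; all solutions in `K` are numerically equivalent to
`p`; so the average of the conjugates of a solution in a number field gives a rational numerical
solution `T`, and then `p = 1 - (1 - T ^ N) ^ N`.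
-/

set_option autoImplicit false

namespace Pool.Agent.Results.MP_eadf0f_ag.NumericalForm

open Pool.Agent.TH6.NC

/-- **`C_NC(𝒜)` does not depend on the field of coefficients, and it is equivalent to its numerical
form**: to the existence of a numerical idempotent whose Euler pairing with the diagonal is
`dim HP⁺(𝒜)`, and to the statement that `dim HP⁺(𝒜)` is the largest Euler pairing with the diagonal
of a numerical idempotent. -/
theorem result {K : Type} [Field K] [CharZero K] [IsAlgClosed K] {V : Type} [AddCommGroup V]
    [Module K V] [Module.Finite K V] {p : Module.End K V} (hp : p * p = p)
    {R : Subring (Module.End K V)} (hR : ∀ x ∈ R, Commute x p)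
    (hQ : ∀ q : ℚ, ∀ x ∈ R, (q : K) • x ∈ R)
    (hrat : ∀ x ∈ R, ∃ q : ℚ, superTrace p x = (q : K)) (F : Subfield K) :
    List.TFAE [p ∈ R,
      p ∈ Submodule.span F (R : Set (Module.End K V)),
      ∃ T ∈ R, NumIdempotent p R T ∧ superTrace p T = Module.finrank K (LinearMap.range p),
      IsGreatest {q : ℚ | ∃ T ∈ R, NumIdempotent p R T ∧ superTrace p T = (q : K)}
        (Module.finrank K (LinearMap.range p) : ℚ)] :=
  numerical_tfae hp hR hQ hrat F

end Pool.Agent.Results.MP_eadf0f_ag.NumericalForm
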